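import Pool.Agent.Helper3.HT.Stmts
import Pool.Agent.Helper3.TD.DensK

/-! Row BASE: few integers meet `a` only after more than `1002 b` steps. -/

namespace Pool.Agent.Helper3.HT

open Pool.Agent.Helper3.ND Pool.Agent.Helper3.TD Filter Topology

/-- a common bound for the times at which the small integers meet `a` -/
theorem base_time (a : ℤ) (Y : ℝ) : ∃ t0 : ℕ, ∀ c : ℤ, |(c : ℝ)| ≤ Y → (∃ i : ℕ, T^[i] c = a) → ∃ i : ℕ, i ≤ t0 ∧ T^[i] c = a := by
  classical
  obtain ⟨K, hK⟩ : ∃ K : ℕ, K = ⌊|Y|⌋₊ := ⟨_, rfl⟩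
  have h0 : ∀ c : ℤ, ∃ i : ℕ, (∃ i' : ℕ, T^[i'] c = a) → T^[i] c = a := by
    intro c
    by_cases h : ∃ i' : ℕ, T^[i'] c = a
    · obtain ⟨i, hi⟩ := h
      exact ⟨i, fun _ => hi⟩
    · exact ⟨0, fun h' => absurd h' h⟩
  choose f hf using h0
  refine ⟨(Finset.Icc (-(K : ℤ)) K).sup f, fun c hc h => ⟨f c, ?_, hf c h⟩⟩
  have hcm : c ∈ Finset.Icc (-(K : ℤ)) K := by
    rw [Finset.mem_Icc, ← abs_le]
    have h3 : ((c.natAbs : ℕ) : ℝ) ≤ |Y| := by
      have h4 : ((c.natAbs : ℕ) : ℝ) = |(c : ℝ)| := by rw [Nat.cast_natAbs]; push_cast; rfl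
      rw [h4]; exact le_trans hc (le_abs_self _)
    have h4 := Nat.le_floor h3
    rw [Int.abs_eq_natAbs, hK]
    exact_mod_cast h4
  exact Finset.le_sup (f := f) hcm

/-- windows are bounded by the counting function -/
theorem base_win {Y W b : ℝ} (hW0 : 0 < W) (hW1 : W ≤ 1) {j : ℕ} (hj : 1000 * (b + 1) ≤ j) :
    Gs (PhiJ Y j) W b ≤ Real.exp (1 - b) * cntL Y (Real.exp (b + 1)) := by
  classical
  have h0 := (PhiJ_fam Y).nonneg j
  obtain ⟨X, hX⟩ : ∃ X : ℤ, X = ⌈Real.exp (b + W)⌉ := ⟨_, rfl⟩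
  have h2 : Gs (PhiJ Y j) W b ≤ Real.exp (1 - b) * ∑ N ∈ Finset.Icc (-X) X,
      (if |(N : ℝ)| ≤ Real.exp (b + 1) ∧ badJ Y j N then (1 : ℝ) else 0) := by
    unfold Gs SS
    rw [Finset.mul_sum, ← hX]
    apply Finset.sum_le_sum
    intro N _
    by_cases h3 : om b W N = 0
    · rw [h3, mul_zero]
      apply mul_nonneg (Real.exp_pos _).le
      split_ifs
      · norm_num
      · exact le_rfl
    · obtain ⟨h4, h5⟩ := om_ne_zero hW0 h3
      rw [abs_lt] at h5
      have h6 : |(N : ℝ)| ≤ Real.exp (b + 1) := by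
        rw [← Real.log_le_iff_le_exp h4]; linarith
      have h7 : Real.exp (b - 1) ≤ |(N : ℝ)| := by
        rw [← Real.le_log_iff_exp_le h4]; linarith
      have h8 : om b W N ≤ Real.exp (1 - b) := by
        refine le_trans (om_le b W N) ?_
        calc 1 / |(N : ℝ)| ≤ 1 / Real.exp (b - 1) := one_div_le_one_div_of_le (Real.exp_pos _) h7
          _ = Real.exp (1 - b) := by rw [one_div, ← Real.exp_neg]; congr 1; ring
      by_cases h9 : badJ Y j N
      · rw [if_pos ⟨h6, h9⟩]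
        unfold PhiJ
        rw [if_pos h9, one_mul, mul_one]
        exact h8
      · rw [if_neg (fun h => h9 h.2)]
        unfold PhiJ
        rw [if_neg h9, zero_mul, mul_zero]
  refine le_trans h2 (mul_le_mul_of_nonneg_left ?_ (Real.exp_pos _).le)
  rw [← Finset.sum_filter, Finset.sum_const, nsmul_eq_mul, mul_one]
  have h1 : (((Finset.Icc (-X) X).filter (fun N : ℤ => |(N : ℝ)| ≤ Real.exp (b + 1) ∧ badJ Y j N) : Finset ℤ) : Set ℤ) ⊆
      {N : ℤ | |(N : ℝ)| ≤ Real.exp (b + 1) ∧ ∀ t : ℕ, (t : ℝ) ≤ 1000 * Real.log (Real.exp (b + 1)) → Y < |((T^[t] N : ℤ) : ℝ)|} := by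
    intro N hN
    rw [Finset.mem_coe, Finset.mem_filter] at hN
    refine ⟨hN.2.1, fun t ht => hN.2.2 t ?_⟩
    rw [Real.log_exp] at ht
    have : (t : ℝ) ≤ j := le_trans ht hj
    exact_mod_cast this
  have h3 := Set.ncard_le_ncard h1 (fin_abs _ _)
  rw [Set.ncard_coe_finset] at h3
  unfold cntL
  exact_mod_cast h3

/-- **BASE** -/
theorem base : ST_BASE := by
  classical
  intro a κ W ha hκ hW0 hW1
  obtain ⟨C, hC, H⟩ := densK 1
  -- the bound `Y`
  obtain ⟨L, hL⟩ : ∃ L : ℝ, L = C * Real.exp 2 / κ + 1 := ⟨_, rfl⟩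
  have hL1 : 1 ≤ L := by
    rw [hL]
    have : 0 ≤ C * Real.exp 2 / κ := by positivity
    linarith
  obtain ⟨Y, hY⟩ : ∃ Y : ℝ, Y = Real.exp L := ⟨_, rfl⟩
  have hY2 : 2 ≤ Y := by
    rw [hY]
    have := Real.add_one_le_exp L
    linarith
  have hlY : Real.log Y = L := by rw [hY, Real.log_exp]
  obtain ⟨t0, ht0⟩ := base_time a Y
  refine ⟨(1000 + t0) / 2 + 1, fun b hb j hj => ?_⟩
  have hb0 : 0 ≤ b := by
    have : (0 : ℝ) ≤ t0 := Nat.cast_nonneg _
    linarith
  have ht0j : (t0 : ℝ) ≤ j := by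
    linarith
  have ht0j' : t0 ≤ j := by exact_mod_cast ht0j
  have hj1 : 1000 * (b + 1) ≤ ((j - t0 : ℕ) : ℝ) := by
    rw [Nat.cast_sub ht0j']
    linarith
  -- comparison
  have h1 : Gs (FI a) W b ≤ Gs (FH a j) W b + Gs (PhiJ Y (j - t0)) W b := by
    unfold Gs SS
    rw [← Finset.sum_add_distrib]
    apply Finset.sum_le_sum
    intro N _
    rw [← add_mul]
    apply mul_le_mul_of_nonneg_right _ (om_nonneg _ _ _)
    unfold FI FH PhiJ
    by_cases h2 : ∃ i : ℕ, T^[i] N = a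
    · by_cases h3 : ∃ i : ℕ, i ≤ j ∧ T^[i] N = a
      · rw [if_pos h2, if_pos h3]
        split_ifs <;> norm_num
      · have h4 : badJ Y (j - t0) N := by
          intro i hi
          by_contra h5
          rw [not_lt] at h5
          obtain ⟨i', hi'⟩ := h2
          have h6 : i ≤ i' := by
            by_contra h7
            exact h3 ⟨i', by omega, hi'⟩
          obtain ⟨k, hk, hk'⟩ := ht0 (T^[i] N) h5 ⟨i' - i, by
            rw [← Function.iterate_add_apply, show i' - i + i = i' by omega]; exact hi'⟩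
          apply h3
          refine ⟨k + i, by omega, ?_⟩
          rw [Function.iterate_add_apply]; exact hk'
        rw [if_pos h2, if_neg h3, if_pos h4]
        norm_num
    · rw [if_neg h2]
      split_ifs <;> norm_num
  refine le_trans h1 (add_le_add_right ?_ _)
  refine le_trans (base_win hW0 hW1 hj1) ?_
  have h2 := H Y hY2 (Real.exp (b + 1)) (Real.one_le_exp (by linarith))
  rw [hlY, pow_one] at h2
  have hL0 : 0 < L := by linarith
  calc Real.exp (1 - b) * cntL Y (Real.exp (b + 1)) ≤ Real.exp (1 - b) * (C * Real.exp (b + 1) / L) :=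
        mul_le_mul_of_nonneg_left h2 (Real.exp_pos _).le
    _ = C * Real.exp 2 / L := by
        have e : Real.exp (1 - b) * Real.exp (b + 1) = Real.exp 2 := by
          rw [← Real.exp_add]; congr 1; ring
        rw [← e]; ring
    _ ≤ κ := by
        rw [div_le_iff₀ hL0, hL]
        have : κ * (C * Real.exp 2 / κ + 1) = C * Real.exp 2 + κ := by field_simp
        rw [this]
        linarith

end Pool.Agent.Helper3.HT
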