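import Pool.Agent.Helper3.HT.Stmts2
import Pool.Agent.Helper3.TD.Cls

/-! Row DET: the two deterministic comparisons of the steps of `T` and of the Syracuse steps. -/

namespace Pool.Agent.Helper3.HT

open Pool.Agent.Helper3.ND Pool.Agent.Helper3.TD Filter Topology

theorem det_T_two (n : ℤ) : T (2 * n) = n := by
  have h := T_even (n := 2 * n) (by omega)
  omega

theorem det_T_pow (v : ℕ) (n : ℤ) : T^[v] (2 ^ v * n) = n := by
  induction v with
  | zero => simp
  | succ v ih =>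
    rw [Function.iterate_succ_apply, show (2 : ℤ) ^ (v + 1) * n = 2 * (2 ^ v * n) by ring, det_T_two, ih]

theorem det_T_neg {n : ℤ} (h : n < 0) : T n < 0 := by
  rcases par_cases n with h1 | h1
  · have := T_even h1; omega
  · have := T_odd h1; omega

theorem det_iter_neg {n : ℤ} (h : n < 0) (t : ℕ) : T^[t] n < 0 := by
  induction t with
  | zero => simpa using h
  | succ t ih => rw [Function.iterate_succ_apply']; exact det_T_neg ih

/-- one Syracuse step -/
theorem det_step {N : ℤ} (ho : Odd N) : ∃ v : ℕ, 3 * N + 1 = 2 ^ (v + 1) * syr N ∧ Odd (syr N) ∧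
    T N = 2 ^ v * syr N ∧ T^[v + 1] N = syr N := by
  obtain ⟨v, hv, ho'⟩ := syr_spec ho
  have h1 := T_odd (Int.odd_iff.mp ho)
  have h2 : T N = 2 ^ v * syr N := by
    have : 2 * T N = 2 * (2 ^ v * syr N) := by rw [h1, hv]; ring
    linarith
  refine ⟨v, hv, ho', h2, ?_⟩
  rw [Function.iterate_succ_apply, h2, det_T_pow]

theorem det1 : ST_DET1 := by
  intro a N k
  induction k generalizing N with
  | zero =>
    intro h0 ho h
    refine ⟨0, h, ?_⟩
    have : N = a := by simpa using h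
    rw [this]; simp
  | succ k ih =>
    intro h0 ho h
    rw [Function.iterate_succ_apply] at h
    obtain ⟨v, hv, ho', hT, hTT⟩ := det_step ho
    obtain ⟨j, hj, hb⟩ := ih (syr N) (syr_neg h0 ho) ho' h
    refine ⟨j + (v + 1), ?_, ?_⟩
    · rw [Function.iterate_add_apply, hTT, hj]
    · have h1 : (3 * N + 1 : ℝ) = 2 ^ (v + 1) * (syr N : ℝ) := by exact_mod_cast hv
      have h2 : |(3 * N + 1 : ℝ)| = 2 ^ (v + 1) * |(syr N : ℝ)| := by
        rw [h1, abs_mul, abs_of_pos (by positivity : (0 : ℝ) < 2 ^ (v + 1))]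
      have h3 : (N : ℝ) ≤ -1 := by exact_mod_cast (by omega : N ≤ -1)
      rw [abs_of_neg (by linarith)] at h2
      rw [abs_of_neg (by linarith : (N : ℝ) < 0)]
      calc (2 : ℝ) ^ (j + (v + 1)) * |(a : ℝ)| = 2 ^ (v + 1) * (2 ^ j * |(a : ℝ)|) := by rw [pow_add]; ring
        _ ≤ 2 ^ (v + 1) * (3 ^ k * |(syr N : ℝ)|) := by gcongr
        _ = 3 ^ k * (2 ^ (v + 1) * |(syr N : ℝ)|) := by ring
        _ = 3 ^ k * (-(3 * N + 1)) := by rw [h2]
        _ ≤ 3 ^ k * (3 * -N) := by gcongr; linarith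
        _ = 3 ^ (k + 1) * -(N : ℝ) := by rw [pow_succ]; ring

/-- the orbit of `T` in terms of Syracuse iterates, with the number of odd members -/
theorem det_orbit {N : ℤ} (ho : Odd N) (t : ℕ) : ∃ i : ℕ, T^[t] N = 2 ^ i * syr^[od t N] N ∧ Odd (syr^[od t N] N) := by
  induction t with
  | zero => exact ⟨0, by simp [od], by simpa [od] using ho⟩
  | succ t ih =>
    obtain ⟨i, h, h'⟩ := ih
    rw [Function.iterate_succ_apply', od_succ_last]
    rcases Nat.eq_zero_or_pos i with h0 | h0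
    · subst h0
      rw [pow_zero, one_mul] at h
      rw [h, Int.odd_iff.mp h', show ((1 : ℤ)).toNat = 1 from rfl, Function.iterate_succ_apply']
      obtain ⟨v, _, h2, h3, _⟩ := det_step h'
      exact ⟨v, h3, h2⟩
    · obtain ⟨w, rfl⟩ := Nat.exists_eq_succ_of_ne_zero h0.ne'
      have h1 : T^[t] N = 2 * (2 ^ w * syr^[od t N] N) := by rw [h, Nat.succ_eq_add_one, pow_succ]; ring
      have h2 : T^[t] N % 2 = 0 := by omega
      rw [h2, show ((0 : ℤ)).toNat = 0 from rfl, add_zero]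
      refine ⟨w, ?_, h'⟩
      rw [h1, det_T_two]

/-- product over a finset of positive naturals -/
theorem det_prod (k : ℕ) : ∀ L : Finset ℕ, L.card = k → (∀ l ∈ L, 1 ≤ l) → (1 : ℝ) / (k + 1) ≤ ∏ l ∈ L, ((l : ℝ) / (l + 1)) := by
  induction k with
  | zero =>
    intro L hL _
    rw [Finset.card_eq_zero.mp hL]
    simp
  | succ k ih =>
    intro L hL hp
    have hne : L.Nonempty := by rw [← Finset.card_pos, hL]; omega
    obtain ⟨m, hm⟩ : ∃ m, m = L.max' hne := ⟨_, rfl⟩
    have hmL : m ∈ L := by rw [hm]; exact L.max'_mem hne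
    have hsub : L ⊆ Finset.Icc 1 m := by
      intro l hl
      rw [Finset.mem_Icc, hm]
      exact ⟨hp l hl, L.le_max' l hl⟩
    have hkm : k + 1 ≤ m := by
      have := Finset.card_le_card hsub
      rw [hL, Nat.card_Icc] at this
      omega
    have h1 := ih (L.erase m) (by rw [Finset.card_erase_of_mem hmL, hL]; rfl) (fun l hl => hp l (Finset.mem_of_mem_erase hl))
    rw [← Finset.mul_prod_erase L _ hmL]
    have h2 : ((k : ℝ) + 1) / (k + 2) ≤ (m : ℝ) / (m + 1) := by
      have hkm' : (k : ℝ) + 1 ≤ m := by exact_mod_cast hkm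
      rw [div_le_div_iff₀ (by positivity) (by positivity)]
      nlinarith
    calc (1 : ℝ) / ((k + 1 : ℕ) + 1) = ((k : ℝ) + 1) / (k + 2) * (1 / (k + 1)) := by
          push_cast
          field_simp
          ring
      _ ≤ (m : ℝ) / (m + 1) * ∏ l ∈ L.erase m, ((l : ℝ) / (l + 1)) := by gcongr

/-- the odd times -/
def oS (N : ℤ) (t : ℕ) : Finset ℕ := (Finset.range t).filter (fun i => T^[i] N % 2 = 1)

theorem det_formula {N : ℤ} (hN : N < 0) (t : ℕ) : od t N = (oS N t).card ∧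
    (2 : ℝ) ^ t * |((T^[t] N : ℤ) : ℝ)| = 3 ^ (od t N) * |(N : ℝ)| * ∏ i ∈ oS N t, (1 - 1 / (3 * |((T^[i] N : ℤ) : ℝ)|)) := by
  induction t with
  | zero => simp [oS, od]
  | succ t ih =>
    obtain ⟨h1, h2⟩ := ih
    have hneg := det_iter_neg hN t
    have hx : ((T^[t] N : ℤ) : ℝ) < 0 := by exact_mod_cast hneg
    have hx1 : ((T^[t + 1] N : ℤ) : ℝ) < 0 := by exact_mod_cast det_iter_neg hN (t + 1)
    have hnot : t ∉ oS N t := by unfold oS; simp
    rw [od_succ_last]
    rcases par_cases (T^[t] N) with h | h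
    · have hS : oS N (t + 1) = oS N t := by
        unfold oS
        rw [Finset.range_add_one, Finset.filter_insert, if_neg (by omega)]
      rw [hS, h, show ((0 : ℤ)).toNat = 0 from rfl, add_zero]
      refine ⟨h1, ?_⟩
      rw [← h2]
      have h3 := T_even h
      rw [← Function.iterate_succ_apply' T t N] at h3
      have h4 : 2 * ((T^[t + 1] N : ℤ) : ℝ) = ((T^[t] N : ℤ) : ℝ) := by exact_mod_cast h3
      rw [abs_of_neg hx, abs_of_neg hx1, ← h4, pow_succ]
      ring
    · have hS : oS N (t + 1) = insert t (oS N t) := by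
        unfold oS
        rw [Finset.range_add_one, Finset.filter_insert, if_pos h]
      rw [hS, Finset.card_insert_of_notMem hnot, Finset.prod_insert hnot, h, show ((1 : ℤ)).toNat = 1 from rfl]
      refine ⟨by rw [h1], ?_⟩
      have h3 := T_odd h
      rw [← Function.iterate_succ_apply' T t N] at h3
      have h4 : 2 * ((T^[t + 1] N : ℤ) : ℝ) = 3 * ((T^[t] N : ℤ) : ℝ) + 1 := by exact_mod_cast h3
      have h5 : 3 * |((T^[t] N : ℤ) : ℝ)| * (1 - 1 / (3 * |((T^[t] N : ℤ) : ℝ)|)) = 2 * |((T^[t + 1] N : ℤ) : ℝ)| := by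
        rw [abs_of_neg hx, abs_of_neg hx1]
        have h6 : 3 * -((T^[t] N : ℤ) : ℝ) ≠ 0 := by
          intro h7; linarith
        rw [mul_sub, mul_one, mul_one_div_cancel h6]
        linarith
      calc (2 : ℝ) ^ (t + 1) * |((T^[t + 1] N : ℤ) : ℝ)| = 2 ^ t * (2 * |((T^[t + 1] N : ℤ) : ℝ)|) := by rw [pow_succ]; ring
        _ = 2 ^ t * (3 * |((T^[t] N : ℤ) : ℝ)| * (1 - 1 / (3 * |((T^[t] N : ℤ) : ℝ)|))) := by rw [h5]
        _ = 3 * (1 - 1 / (3 * |((T^[t] N : ℤ) : ℝ)|)) * (2 ^ t * |((T^[t] N : ℤ) : ℝ)|) := by ring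
        _ = _ := by rw [h2, pow_succ]; ring

theorem det2 : ST_DET2 := by
  classical
  intro a N j ha hao hN ho hj
  have hex : ∃ i : ℕ, T^[i] N = a := ⟨j, hj⟩
  obtain ⟨j', hj'⟩ : ∃ j' : ℕ, j' = Nat.find hex := ⟨_, rfl⟩
  have h1 : T^[j'] N = a := by rw [hj']; exact Nat.find_spec hex
  have h2 : ∀ i : ℕ, i < j' → T^[i] N ≠ a := by
    intro i hi; rw [hj'] at hi; exact Nat.find_min hex hi
  have h3 : j' ≤ j := by rw [hj']; exact Nat.find_min' hex hj
  obtain ⟨k, hk⟩ : ∃ k : ℕ, k = od j' N := ⟨_, rfl⟩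
  obtain ⟨i, hi, hi'⟩ := det_orbit ho j'
  rw [← hk] at hi hi'
  have hi0 : i = 0 := by
    by_contra h0
    obtain ⟨w, rfl⟩ := Nat.exists_eq_succ_of_ne_zero h0
    have h4 : a = 2 * (2 ^ w * syr^[k] N) := by rw [← h1, hi, Nat.succ_eq_add_one, pow_succ]; ring
    have h5 := Int.odd_iff.mp hao
    omega
  rw [hi0, pow_zero, one_mul, h1] at hi
  refine ⟨j', k, h3, by rw [hk]; exact od_le _ _, h1, hi.symm, ?_⟩
  obtain ⟨hc, hf⟩ := det_formula hN j'
  rw [← hk] at hc hf
  rw [h1] at hf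
  -- distinctness
  have hinj : ∀ p q : ℕ, p < q → q < j' → T^[p] N ≠ T^[q] N := by
    intro p q hpq hq he
    apply h2 (j' - (q - p)) (by omega)
    have e1 : T^[j' - q] (T^[q] N) = T^[j'] N := by
      rw [← Function.iterate_add_apply, Nat.sub_add_cancel hq.le]
    have e2 : T^[j' - q] (T^[p] N) = T^[j' - (q - p)] N := by
      rw [← Function.iterate_add_apply, show j' - q + p = j' - (q - p) by omega]
    rw [← e2, he, e1, h1]
  have hone : ∀ p : ℕ, p < j' → T^[p] N ≠ -1 := by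
    intro p hp he
    have hfix : ∀ u : ℕ, T^[u] (-1 : ℤ) = -1 := by
      intro u
      induction u with
      | zero => rfl
      | succ u ih => rw [Function.iterate_succ_apply', ih]; rfl
    have e1 : a = -1 := by
      rw [← h1, show j' = (j' - p) + p by omega, Function.iterate_add_apply, he, hfix]
    exact h2 p hp (by rw [he, e1])
  -- the half sizes
  obtain ⟨g, hg⟩ : ∃ g : ℕ → ℕ, g = fun i => ((-(T^[i] N) - 1) / 2).toNat := ⟨_, rfl⟩
  have hgs : ∀ i ∈ oS N j', (T^[i] N = -(2 * (g i : ℤ) + 1)) ∧ 1 ≤ g i := by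
    intro i hi
    unfold oS at hi
    rw [Finset.mem_filter, Finset.mem_range] at hi
    have e1 := det_iter_neg hN i
    have e2 := hone i hi.1
    have e3 : (g i : ℤ) = (-(T^[i] N) - 1) / 2 := by
      rw [hg]
      exact Int.toNat_of_nonneg (by omega)
    have e4 : T^[i] N = -(2 * (g i : ℤ) + 1) := by omega
    refine ⟨e4, ?_⟩
    by_contra h
    have : g i = 0 := by omega
    rw [this] at e4
    apply e2
    rw [e4]; norm_num
  have hginj : ∀ p ∈ oS N j', ∀ q ∈ oS N j', g p = g q → p = q := by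
    intro p hp q hq he
    have e1 := (hgs p hp).1
    have e2 := (hgs q hq).1
    have e3 : T^[p] N = T^[q] N := by rw [e1, e2, he]
    have hp' : p < j' := by unfold oS at hp; rw [Finset.mem_filter, Finset.mem_range] at hp; exact hp.1
    have hq' : q < j' := by unfold oS at hq; rw [Finset.mem_filter, Finset.mem_range] at hq; exact hq.1
    rcases lt_trichotomy p q with h | h | h
    · exact absurd e3 (hinj p q h hq')
    · exact h
    · exact absurd e3.symm (hinj q p h hp')
  have hcard : ((oS N j').image g).card = k := by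
    rw [Finset.card_image_of_injOn (fun p hp q hq he => hginj p hp q hq he), ← hc]
  have hP := det_prod k ((oS N j').image g) hcard (by
    intro l hl
    rw [Finset.mem_image] at hl
    obtain ⟨i, hi, rfl⟩ := hl
    exact (hgs i hi).2)
  rw [Finset.prod_image (fun p hp q hq he => hginj p hp q hq he)] at hP
  have hle : ∏ i ∈ oS N j', ((g i : ℝ) / (g i + 1)) ≤ ∏ i ∈ oS N j', (1 - 1 / (3 * |((T^[i] N : ℤ) : ℝ)|)) := by
    apply Finset.prod_le_prod
    · intro i _; positivity
    · intro i hi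
      obtain ⟨e1, e2⟩ := hgs i hi
      have e3 : |((T^[i] N : ℤ) : ℝ)| = 2 * (g i : ℝ) + 1 := by
        rw [e1]; push_cast
        rw [abs_neg, abs_of_pos (by positivity)]
      rw [e3]
      have e4 : (1 : ℝ) ≤ g i := by exact_mod_cast e2
      rw [le_sub_iff_add_le, div_add_div _ _ (by positivity) (by positivity), div_le_one (by positivity)]
      nlinarith
  have hQ := le_trans hP hle
  rw [hf]
  have hA : 0 ≤ (3 : ℝ) ^ k * |(N : ℝ)| := by positivity
  have hk1 : (0 : ℝ) < (k : ℝ) + 1 := by positivity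
  calc (3 : ℝ) ^ k * |(N : ℝ)| = (k + 1) * (3 ^ k * |(N : ℝ)| * (1 / (k + 1))) := by field_simp
    _ ≤ (k + 1) * (3 ^ k * |(N : ℝ)| * ∏ i ∈ oS N j', (1 - 1 / (3 * |((T^[i] N : ℤ) : ℝ)|))) := by gcongr

end Pool.Agent.Helper3.HT
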