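import Pool.Agent.Helper50.HT.Stmts

/-! # Row IAB: the Coulomb energy of two neutral symmetric atoms -/

set_option autoImplicit false

namespace Pool.Agent.Helper18.HT

open MeasureTheory Filter Pool.Agent.Helper95 Pool.Agent.Helper95.PW Pool.Agent.Helper95.LN
open Pool.Agent.Helper50.HT

theorem IAB (h1 : ST_WBD) : ST_IAB := by
  obtain ⟨C, hC, H⟩ := h1
  refine ⟨C, hC, ?_⟩
  intro N N' P Q R D hD hP hQ hR sP sQ
  obtain ⟨A, hA⟩ : ∃ A, A = ∑ k, ∑ l, 1 / nr (R + P k - Q l) := ⟨_, rfl⟩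
  obtain ⟨B, hB⟩ : ∃ B, B = ∑ k, 1 / nr (R + P k) := ⟨_, rfl⟩
  obtain ⟨F, hF⟩ : ∃ F, F = ∑ l, 1 / nr (R - Q l) := ⟨_, rfl⟩
  have e1 : ∑ k, ∑ l, 1 / nr (R + P k + Q l) = A := by
    rw [hA]
    refine Finset.sum_congr rfl fun k _ => ?_
    have h := sQ (fun q => 1 / nr (R + P k + q))
    simp only [← sub_eq_add_neg] at h
    exact h
  have e2 : ∑ k, ∑ l, 1 / nr (R - P k - Q l) = A := by
    have h := sP (fun p => ∑ l, 1 / nr (R + p - Q l))
    simp only [← sub_eq_add_neg] at h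
    rw [hA, h]
  have e3 : ∑ k, ∑ l, 1 / nr (R - P k + Q l) = A := by
    rw [← e2]
    refine Finset.sum_congr rfl fun k _ => ?_
    have h := sQ (fun q => 1 / nr (R - P k + q))
    simp only [← sub_eq_add_neg] at h
    exact h
  have e4 : ∑ k, 1 / nr (R - P k) = B := by
    have h := sP (fun p => 1 / nr (R + p))
    simp only [← sub_eq_add_neg] at h
    rw [hB, h]
  have e5 : ∑ l, 1 / nr (R + Q l) = F := by
    have h := sQ (fun q => 1 / nr (R + q))
    simp only [← sub_eq_add_neg] at h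
    rw [hF, h]
  have key : ∑ k, ∑ l, W2 R (P k) (Q l) = 4 * (A - N * F - N' * B + N * N' / nr R) := by
    unfold W2
    simp only [Finset.sum_add_distrib, Finset.sum_sub_distrib, ← Finset.mul_sum,
      Finset.sum_const, Finset.card_univ, Fintype.card_fin, nsmul_eq_mul]
    rw [← hA, e1, e2, e3, ← hB, e4, ← hF, e5]
    ring
  have hb : |∑ k, ∑ l, W2 R (P k) (Q l)| ≤ N * (N' * (C * D ^ 3 / nr R ^ 4)) := by
    refine (Finset.abs_sum_le_sum_abs _ _).trans ?_
    calc ∑ k, |∑ l, W2 R (P k) (Q l)| ≤ ∑ _k : Fin N, (N' * (C * D ^ 3 / nr R ^ 4)) := by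
          refine Finset.sum_le_sum fun k _ => ?_
          refine (Finset.abs_sum_le_sum_abs _ _).trans ?_
          calc ∑ l, |W2 R (P k) (Q l)| ≤ ∑ _l : Fin N', (C * D ^ 3 / nr R ^ 4) :=
                Finset.sum_le_sum fun l _ => H R (P k) (Q l) D hD (hP k) (hQ l) hR
            _ = N' * (C * D ^ 3 / nr R ^ 4) := by
                rw [Finset.sum_const, Finset.card_univ, Fintype.card_fin, nsmul_eq_mul]
      _ = N * (N' * (C * D ^ 3 / nr R ^ 4)) := by
          rw [Finset.sum_const, Finset.card_univ, Fintype.card_fin, nsmul_eq_mul]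
  rw [key, abs_mul, abs_of_pos (by norm_num : (0 : ℝ) < 4)] at hb
  rw [← hA, ← hB, ← hF]
  have h0 : 0 ≤ |A - N * F - N' * B + N * N' / nr R| := abs_nonneg _
  calc |A - N * F - N' * B + N * N' / nr R| ≤ N * (N' * (C * D ^ 3 / nr R ^ 4)) := by linarith
    _ = C * N * N' * D ^ 3 / nr R ^ 4 := by ring

end Pool.Agent.Helper18.HT
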